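import Mathlib

/-!
# Algebraic integers with balanced valuations and absolute values
-/

set_option linter.unusedSectionVars false
set_option linter.unusedVariables false
set_option autoImplicit false

namespace Pool.Agent.K4H21.TL

open NumberField
open scoped Pointwise

/-- The primes above a prime number are conjugate. -/
theorem exists_smul_prime {L : Type} [Field L] [NumberField L] [IsGalois ℚ L] {p : ℕ}
    (hp : p.Prime) {P Q : Ideal (𝓞 L)} (hP : P.IsPrime) (hQ : Q.IsPrime)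
    (hpP : (p : 𝓞 L) ∈ P) (hpQ : (p : 𝓞 L) ∈ Q) : ∃ g : L ≃ₐ[ℚ] L, g • P = Q := by
  have key : ∀ R : Ideal (𝓞 L), R.IsPrime → (p : 𝓞 L) ∈ R →
      R.LiesOver (Ideal.span {(p : ℤ)}) := by
    intro R hR h
    constructor
    have hmax : (Ideal.span {(p : ℤ)}).IsMaximal := by
      have h1 : Prime (p : ℤ) := Nat.prime_iff_prime_int.1 hp
      exact PrincipalIdealRing.isMaximal_of_irreducible h1.irreducible
    refine hmax.eq_of_le (Ideal.comap_ne_top _ hR.ne_top) ?_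
    rw [Ideal.span_le, Set.singleton_subset_iff]
    change algebraMap ℤ (𝓞 L) (p : ℤ) ∈ R
    simpa using h
  have h1 := key P hP hpP
  have h2 := key Q hQ hpQ
  exact Ideal.exists_smul_eq_of_isGaloisGroup (Ideal.span {(p : ℤ)}) P Q (L ≃ₐ[ℚ] L)

/-- The ideal of the denominators of an element of the field. -/
def denoms {L : Type} [Field L] [NumberField L] (y : L) : Ideal (𝓞 L) where
  carrier := {a | ∃ b : 𝓞 L, (a : L) * y = (b : L)}
  zero_mem' := ⟨0, by simp⟩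
  add_mem' := by
    rintro a a' ⟨b, hb⟩ ⟨b', hb'⟩
    refine ⟨b + b', ?_⟩
    push_cast
    rw [add_mul, hb, hb']
  smul_mem' := by
    rintro c a ⟨b, hb⟩
    refine ⟨c * b, ?_⟩
    rw [smul_eq_mul]
    push_cast
    rw [mul_assoc, hb]

theorem mem_denoms {L : Type} [Field L] [NumberField L] {y : L} {a : 𝓞 L} :
    a ∈ denoms y ↔ ∃ b : 𝓞 L, (a : L) * y = (b : L) := Iff.rfl

theorem coe_smul {L : Type} [Field L] [NumberField L] (σ : L ≃ₐ[ℚ] L) (u : 𝓞 L) :
    ((σ • u : 𝓞 L) : L) = σ (u : L) := rfl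

/-- An algebraic integer in a Galois number field whose conjugates have the absolute value
`q ^ k` and the same valuation as `q ^ k` at one prime above `p`, where `q = p ^ n`, is `q ^ k` times
a root of unity. -/
theorem root_of_balanced {L : Type} [Field L] [NumberField L] [IsGalois ℚ L] (x : L)
    (hx : IsIntegral ℤ x) (p n k : ℕ) (hp : p.Prime) (hn : 0 < n)
    (habs : ∀ φ : L →+* ℂ, ‖φ x‖ = ((p : ℝ) ^ n) ^ k)
    (𝔓 : Ideal (NumberField.RingOfIntegers L)) (h𝔓 : 𝔓.IsPrime)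
    (hp𝔓 : (p : NumberField.RingOfIntegers L) ∈ 𝔓)
    (hval : ∀ σ : L ≃ₐ[ℚ] L, ∃ u w : NumberField.RingOfIntegers L, u ∉ 𝔓 ∧ w ∉ 𝔓 ∧
      (u : L) * σ x = (w : L) * ((p : L) ^ n) ^ k) :
    ∃ s : ℕ, 0 < s ∧ x ^ s = (((p : L) ^ n) ^ k) ^ s := by
  have hp0 : (p : L) ≠ 0 := by exact_mod_cast hp.ne_zero
  obtain ⟨Q, hQ⟩ : ∃ Q : L, Q = ((p : L) ^ n) ^ k := ⟨_, rfl⟩
  have hQ0 : Q ≠ 0 := by
    rw [hQ]
    exact pow_ne_zero _ (pow_ne_zero _ hp0)
  rw [← hQ]
  have hI : denoms (x / Q) = ⊤ := by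
    by_contra hcon
    obtain ⟨𝔔, h1, h2⟩ := Ideal.exists_le_maximal _ hcon
    have h3 : ((p : 𝓞 L) ^ n) ^ k ∈ 𝔔 := by
      refine h2 (mem_denoms.2 ⟨⟨x, hx⟩, ?_⟩)
      have h4 : ((((p : 𝓞 L) ^ n) ^ k : 𝓞 L) : L) = Q := by
        rw [hQ]
        push_cast
        rfl
      rw [h4]
      change Q * (x / Q) = x
      field_simp
    have hprime := h1.isPrime
    have h4 : (p : 𝓞 L) ∈ 𝔔 := hprime.mem_of_pow_mem _ (hprime.mem_of_pow_mem _ h3)
    obtain ⟨σ, hσ⟩ := exists_smul_prime hp h𝔓 hprime hp𝔓 h4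
    obtain ⟨u, w, hu, -, huw⟩ := hval σ⁻¹
    have h5 : σ • u ∉ 𝔔 := by
      rw [← hσ]
      intro h
      exact hu ((Ideal.smul_mem_pointwise_smul_iff).1 h)
    apply h5
    refine h2 (mem_denoms.2 ⟨σ • w, ?_⟩)
    have h6 := congrArg σ huw
    rw [map_mul, map_mul, map_pow, map_pow, map_natCast, ← hQ, ← AlgEquiv.mul_apply,
      mul_inv_cancel, AlgEquiv.one_apply] at h6
    rw [coe_smul, coe_smul, mul_div_assoc', h6, mul_div_cancel_right₀ _ hQ0]
  have h1 : (1 : 𝓞 L) ∈ denoms (x / Q) := by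
    rw [hI]
    exact Submodule.mem_top
  obtain ⟨b, hb⟩ := mem_denoms.1 h1
  have h2 : IsIntegral ℤ (x / Q) := by
    have h3 : x / Q = (b : L) := by
      rw [← hb]
      simp
    rw [h3]
    exact b.2
  obtain ⟨s, hs, h3⟩ := Embeddings.pow_eq_one_of_norm_eq_one L ℂ h2 fun φ => by
    rw [map_div₀, norm_div, habs φ, hQ, map_pow, map_pow, map_natCast, norm_pow, norm_pow,
      Complex.norm_natCast]
    have hp' : (p : ℝ) ≠ 0 := by exact_mod_cast hp.ne_zero
    exact div_self (pow_ne_zero _ (pow_ne_zero _ hp'))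
  refine ⟨s, hs, ?_⟩
  rw [div_pow, div_eq_one_iff_eq (pow_ne_zero _ hQ0)] at h3
  exact h3

end Pool.Agent.K4H21.TL
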