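import Mathlib
import Pool.Agent.H977R3.CM.Aut
import Pool.Agent.K4H21.TL.Kron

/-!
# The angle rank of a set of ordinary Weil numbers

The rank of the group which is generated by the numbers `α ^ 2 / q` is the dimension of the space
which is spanned by the sign functions of the elements of the set.
-/

set_option linter.unusedSectionVars false
set_option linter.unusedVariables false
set_option autoImplicit false

namespace Pool.Agent.K4H21.TL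

open Module NumberField
open scoped ComplexConjugate

theorem finrank_eq_of {ι : Type} [Fintype ι] {M : Type*} [AddCommGroup M] {V : Type*}
    [AddCommGroup V] [Module ℚ V] (F : (ι → ℤ) →ₗ[ℤ] M) (hF : Function.Surjective F)
    (s : ι → V)
    (h1 : ∀ m : ι → ℤ, F m = 0 → ∑ i, m i • s i = 0)
    (h2 : ∀ m : ι → ℤ, ∑ i, m i • s i = 0 → ∃ N : ℤ, N ≠ 0 ∧ N • F m = 0) :
    finrank ℤ M = finrank ℚ (Submodule.span ℚ (Set.range s)) := by
  classical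
  let G : (ι → ℤ) →ₗ[ℤ] V := Fintype.linearCombination ℤ s
  have hG : ∀ m, G m = ∑ i, m i • s i := fun m => Fintype.linearCombination_apply ℤ s m
  have hfin : Module.Finite ℤ M := Module.Finite.of_surjective F hF
  have key1 : ∀ {κ : Type _} (c : κ → (ι → ℤ)), LinearIndependent ℤ (F ∘ c) →
      LinearIndependent ℤ (G ∘ c) := by
    intro κ c hc
    rw [linearIndependent_iff'] at hc ⊢
    intro t g hg
    have e1 : G (∑ i ∈ t, g i • c i) = 0 := by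
      rw [map_sum, ← hg]
      exact Finset.sum_congr rfl fun k _ => map_smul G (g k) (c k)
    rw [hG] at e1
    obtain ⟨N, hN, h3⟩ := h2 _ e1
    intro i hi
    have h4 := hc t (fun i => N * g i) (by
      rw [map_sum, Finset.smul_sum] at h3
      rw [← h3]
      refine Finset.sum_congr rfl fun k _ => ?_
      rw [map_smul, smul_smul]
      rfl) i hi
    exact (mul_eq_zero.1 h4).resolve_left hN
  have key2 : ∀ {κ : Type} (c : κ → (ι → ℤ)), LinearIndependent ℤ (G ∘ c) →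
      LinearIndependent ℤ (F ∘ c) := by
    intro κ c hc
    rw [linearIndependent_iff'] at hc ⊢
    intro t g hg i hi
    refine hc t g ?_ i hi
    have e1 : F (∑ i ∈ t, g i • c i) = 0 := by
      rw [map_sum, ← hg]
      exact Finset.sum_congr rfl fun k _ => map_smul F (g k) (c k)
    have e2 := h1 _ e1
    rw [← hG, map_sum] at e2
    rw [← e2]
    exact Finset.sum_congr rfl fun k _ => (map_smul G (g k) (c k)).symm
  apply le_antisymm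
  · obtain ⟨T, hT, hli⟩ := exists_finset_linearIndependent_of_le_finrank (le_refl (finrank ℤ M))
    choose c hc using fun x : T => hF (x : M)
    have h3 : LinearIndependent ℤ (F ∘ c) := by
      have e : F ∘ c = fun x : T => (x : M) := funext hc
      rw [e]
      exact hli
    have h4 := key1 c h3
    rw [LinearIndependent.iff_fractionRing ℤ ℚ] at h4
    have h5 := finrank_span_eq_card h4
    rw [Fintype.card_coe, hT] at h5
    rw [← h5]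
    have hfd : FiniteDimensional ℚ (Submodule.span ℚ (Set.range s)) :=
      FiniteDimensional.span_of_finite ℚ (Set.finite_range s)
    refine Submodule.finrank_mono ?_
    rw [Submodule.span_le]
    rintro _ ⟨x, rfl⟩
    change G (c x) ∈ _
    rw [hG]
    refine Submodule.sum_mem _ fun i _ => ?_
    rw [← Int.cast_smul_eq_zsmul ℚ]
    exact Submodule.smul_mem _ _ (Submodule.subset_span ⟨i, rfl⟩)
  · obtain ⟨κ, a, ha, hsp, hli⟩ := exists_linearIndependent' ℚ s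
    have : Finite κ := Finite.of_injective a ha
    have := Fintype.ofFinite κ
    rw [← hsp, finrank_span_eq_card hli]
    have h3 : LinearIndependent ℤ (G ∘ fun k => (Pi.single (a k) (1 : ℤ) : ι → ℤ)) := by
      have e : (G ∘ fun k => (Pi.single (a k) (1 : ℤ) : ι → ℤ)) = s ∘ a := by
        funext k
        change G (Pi.single (a k) 1) = s (a k)
        rw [hG]
        simp [Pi.single_apply]
      rw [e, LinearIndependent.iff_fractionRing ℤ ℚ]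
      exact hli
    exact (key2 _ h3).fintype_card_le_finrank

/-- the number `z` is `q ^ E` times a quotient of elements which are not in the prime ideal -/
def Val {L : Type} [Field L] (j : L →+* ℂ) (𝔓 : Ideal (integralClosure ℤ ℂ)) (q : ℂ)
    (z : ℂ) (E : ℤ) : Prop :=
  ∃ a b : integralClosure ℤ ℂ, a ∉ 𝔓 ∧ b ∉ 𝔓 ∧ (a : ℂ) ∈ Set.range j ∧ (b : ℂ) ∈ Set.range j ∧
    (a : ℂ) * z = b * q ^ E

section val

variable {L : Type} [Field L] {j : L →+* ℂ} {𝔓 : Ideal (integralClosure ℤ ℂ)} {q : ℂ}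

theorem ne_zero_of_notMem {a : integralClosure ℤ ℂ} (ha : a ∉ 𝔓) : (a : ℂ) ≠ 0 := by
  intro h
  apply ha
  have : a = 0 := Subtype.ext h
  rw [this]
  exact 𝔓.zero_mem

theorem Val.one (h𝔓 : 𝔓.IsPrime) : Val j 𝔓 q 1 0 := by
  have h1 : (1 : integralClosure ℤ ℂ) ∉ 𝔓 := fun h => h𝔓.ne_top ((Ideal.eq_top_iff_one _).2 h)
  exact ⟨1, 1, h1, h1, ⟨1, map_one j⟩, ⟨1, map_one j⟩, by simp⟩

theorem Val.mul (h𝔓 : 𝔓.IsPrime) (hq : q ≠ 0) {z w : ℂ} {E D : ℤ} (hz : Val j 𝔓 q z E)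
    (hw : Val j 𝔓 q w D) : Val j 𝔓 q (z * w) (E + D) := by
  obtain ⟨a, b, ha, hb, ⟨a', ha'⟩, ⟨b', hb'⟩, h⟩ := hz
  obtain ⟨c, d, hc, hd, ⟨c', hc'⟩, ⟨d', hd'⟩, h'⟩ := hw
  refine ⟨a * c, b * d, fun h1 => ?_, fun h1 => ?_, ⟨a' * c', ?_⟩, ⟨b' * d', ?_⟩, ?_⟩
  · exact (h𝔓.mem_or_mem h1).elim ha hc
  · exact (h𝔓.mem_or_mem h1).elim hb hd
  · rw [map_mul, ha', hc']; rfl
  · rw [map_mul, hb', hd']; rfl
  · rw [zpow_add₀ hq]
    change (a : ℂ) * c * (z * w) = (b : ℂ) * d * (q ^ E * q ^ D)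
    linear_combination (c * w : ℂ) * h + (b * q ^ E : ℂ) * h'

theorem Val.inv (hq : q ≠ 0) {z : ℂ} {E : ℤ} (hz : Val j 𝔓 q z E) :
    Val j 𝔓 q z⁻¹ (-E) := by
  obtain ⟨a, b, ha, hb, ha', hb', h⟩ := hz
  refine ⟨b, a, hb, ha, hb', ha', ?_⟩
  have hb0 := ne_zero_of_notMem hb
  have hq0 : q ^ E ≠ 0 := zpow_ne_zero _ hq
  have hz0 : z ≠ 0 := by
    rintro rfl
    rw [mul_zero] at h
    exact mul_ne_zero hb0 hq0 h.symm
  rw [zpow_neg, ← div_eq_mul_inv, ← div_eq_mul_inv, div_eq_div_iff hz0 hq0]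
  exact h.symm

theorem Val.pow (h𝔓 : 𝔓.IsPrime) (hq : q ≠ 0) {z : ℂ} {E : ℤ} (hz : Val j 𝔓 q z E) (n : ℕ) :
    Val j 𝔓 q (z ^ n) (n * E) := by
  induction n with
  | zero => simpa using Val.one h𝔓
  | succ n ih =>
    have := Val.mul h𝔓 hq ih hz
    rw [pow_succ]
    convert this using 1
    push_cast
    ring

theorem Val.zpow (h𝔓 : 𝔓.IsPrime) (hq : q ≠ 0) {z : ℂ} {E : ℤ} (hz : Val j 𝔓 q z E) (n : ℤ) :
    Val j 𝔓 q (z ^ n) (n * E) := by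
  obtain ⟨m, rfl | rfl⟩ := n.eq_nat_or_neg
  · rw [zpow_natCast]
    exact hz.pow h𝔓 hq m
  · rw [zpow_neg, zpow_natCast, neg_mul]
    exact (hz.pow h𝔓 hq m).inv hq

theorem Val.prod (h𝔓 : 𝔓.IsPrime) (hq : q ≠ 0) {ι : Type} (t : Finset ι) (z : ι → ℂ) (E : ι → ℤ)
    (h : ∀ i ∈ t, Val j 𝔓 q (z i) (E i)) : Val j 𝔓 q (∏ i ∈ t, z i) (∑ i ∈ t, E i) := by
  classical
  induction t using Finset.induction_on with
  | empty => simpa using Val.one h𝔓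
  | insert a s ha ih =>
    rw [Finset.prod_insert ha, Finset.sum_insert ha]
    exact Val.mul h𝔓 hq (h a (Finset.mem_insert_self a s))
      (ih fun i hi => h i (Finset.mem_insert_of_mem hi))

theorem Val.eq_zero (h𝔓 : 𝔓.IsPrime) {Q : integralClosure ℤ ℂ} (hQ : (Q : ℂ) = q)
    (hQ𝔓 : Q ∈ 𝔓) (hq : q ≠ 0) {E : ℤ} (h : Val j 𝔓 q 1 E) : E = 0 := by
  have key : ∀ (m : ℕ), Val j 𝔓 q 1 ((m : ℤ) + 1) → False := by
    rintro m ⟨a, b, ha, hb, -, -, h1⟩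
    apply ha
    have h2 : a = b * Q ^ (m + 1) := by
      apply Subtype.ext
      change (a : ℂ) = b * (Q : ℂ) ^ (m + 1)
      rw [mul_one] at h1
      rw [h1, hQ]
      norm_cast
    rw [h2]
    exact 𝔓.mul_mem_left _ (Ideal.pow_mem_of_mem _ hQ𝔓 _ (Nat.succ_pos m))
  rcases lt_trichotomy E 0 with h1 | h1 | h1
  · exfalso
    have h2 := h.inv hq
    rw [inv_one] at h2
    refine key (-E - 1).toNat ?_
    have e : (((-E - 1).toNat : ℕ) : ℤ) + 1 = -E := by omega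
    rw [e]
    exact h2
  · exact h1
  · exfalso
    refine key (E - 1).toNat ?_
    have e : (((E - 1).toNat : ℕ) : ℤ) + 1 = E := by omega
    rw [e]
    exact h

theorem Val.unique (h𝔓 : 𝔓.IsPrime) {Q : integralClosure ℤ ℂ} (hQ : (Q : ℂ) = q)
    (hQ𝔓 : Q ∈ 𝔓) (hq : q ≠ 0) {z : ℂ} {E D : ℤ} (h : Val j 𝔓 q z E) (h' : Val j 𝔓 q z D) :
    E = D := by
  have h1 := h.mul h𝔓 hq (h'.inv hq)
  have hz : z ≠ 0 := by
    rintro rfl
    obtain ⟨a, b, ha, hb, -, -, h2⟩ := h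
    rw [mul_zero] at h2
    exact mul_ne_zero (ne_zero_of_notMem hb) (zpow_ne_zero _ hq) h2.symm
  rw [mul_inv_cancel₀ hz] at h1
  have h2 := Val.eq_zero h𝔓 hQ hQ𝔓 hq h1
  omega

end val

theorem exists_aut_comp {L : Type} [Field L] [NumberField L] [IsGalois ℚ L] (j φ : L →+* ℂ) :
    ∃ σ : L ≃ₐ[ℚ] L, ∀ x, φ x = j (σ x) := by
  classical
  have hinj : Function.Injective (fun σ : L ≃ₐ[ℚ] L => j.comp (σ : L →+* L)) := by
    intro σ τ h
    ext x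
    exact j.injective (RingHom.congr_fun h x)
  have h : Function.Bijective (fun σ : L ≃ₐ[ℚ] L => j.comp (σ : L →+* L)) := by
    rw [Fintype.bijective_iff_injective_and_card]
    refine ⟨hinj, ?_⟩
    rw [Embeddings.card, ← Nat.card_eq_fintype_card, IsGalois.card_aut_eq_finrank]
  obtain ⟨σ, hσ⟩ := h.2 φ
  exact ⟨σ, fun x => (RingHom.congr_fun hσ x).symm⟩

open Classical in
/-- The sign of a number. -/
noncomputable def sg (𝔓 : Ideal (integralClosure ℤ ℂ)) (β : ℂ) : ℤ :=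
  if (∃ a : integralClosure ℤ ℂ, (a : ℂ) = β ∧ a ∈ 𝔓) then 1 else -1

section main

variable {p n : ℕ} {L : Type} [Field L] [NumberField L] [IsGalois ℚ L] {j : L →+* ℂ} {S : Set ℂ}
  {𝔓 : Ideal (integralClosure ℤ ℂ)}

theorem val_sg (hp : p.Prime) (h𝔓 : 𝔓.IsPrime) (hp𝔓 : (p : integralClosure ℤ ℂ) ∈ 𝔓)
    (hn : 0 < n) {β : ℂ} (hj : β ∈ Set.range j)
    (hβ : ∃ a b : integralClosure ℤ ℂ, (a : ℂ) = β ∧ (b : ℂ) = conj β ∧
      a * b = (p : integralClosure ℤ ℂ) ^ n)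
    (hord : (∀ a : integralClosure ℤ ℂ, (a : ℂ) = β → a ∉ 𝔓) ∨
      ∀ b : integralClosure ℤ ℂ, (b : ℂ) = conj β → b ∉ 𝔓) :
    Val j 𝔓 ((p ^ n : ℕ) : ℂ) (β ^ 2 / ((p ^ n : ℕ) : ℂ)) (sg 𝔓 β) := by
  classical
  obtain ⟨a, b, ha, hb, hab⟩ := hβ
  have hq : ((p ^ n : ℕ) : ℂ) ≠ 0 := by exact_mod_cast pow_ne_zero n hp.ne_zero
  have h1 : (1 : integralClosure ℤ ℂ) ∉ 𝔓 := fun h => h𝔓.ne_top ((Ideal.eq_top_iff_one _).2 h)
  have hab' : (a : ℂ) * b = ((p ^ n : ℕ) : ℂ) := by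
    have := congrArg (fun x : integralClosure ℤ ℂ => (x : ℂ)) hab
    push_cast at this ⊢
    exact this
  have ha0 : (a : ℂ) ≠ 0 := by
    intro h
    rw [h, zero_mul] at hab'
    exact hq hab'.symm
  unfold sg
  by_cases h : ∃ a : integralClosure ℤ ℂ, (a : ℂ) = β ∧ a ∈ 𝔓
  · rw [if_pos h]
    obtain ⟨a', ha', ha'𝔓⟩ := h
    have hb𝔓 : b ∉ 𝔓 := (hord.resolve_left fun h => h a' ha' ha'𝔓) b hb
    obtain ⟨x, hx⟩ := hj
    have hbj : (b : ℂ) ∈ Set.range j := by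
      refine ⟨((p ^ n : ℕ) : L) / x, ?_⟩
      rw [map_div₀, map_natCast, hx, ← ha, ← hab', mul_comm, mul_div_assoc, div_self ha0, mul_one]
    obtain ⟨y, hy⟩ := hbj
    refine ⟨b ^ 2, 1, fun h => hb𝔓 (h𝔓.mem_of_pow_mem 2 h), h1, ⟨y ^ 2, ?_⟩, ⟨1, map_one j⟩, ?_⟩
    · rw [map_pow, hy]
      rfl
    · change (b : ℂ) ^ 2 * (β ^ 2 / ((p ^ n : ℕ) : ℂ)) = 1 * ((p ^ n : ℕ) : ℂ) ^ (1 : ℤ)
      rw [← ha, zpow_one, one_mul, mul_div_assoc', div_eq_iff hq, ← hab']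
      ring
  · rw [if_neg h]
    push Not at h
    have ha𝔓 : a ∉ 𝔓 := h a ha
    obtain ⟨x, hx⟩ := hj
    refine ⟨1, a ^ 2, h1, fun h => ha𝔓 (h𝔓.mem_of_pow_mem 2 h), ⟨1, map_one j⟩, ⟨x ^ 2, ?_⟩, ?_⟩
    · rw [map_pow, hx, ← ha]
      rfl
    · change 1 * (β ^ 2 / ((p ^ n : ℕ) : ℂ)) = (a : ℂ) ^ 2 * ((p ^ n : ℕ) : ℂ) ^ (-1 : ℤ)
      rw [zpow_neg_one, one_mul, ← ha]
      rfl

/-- The product of powers. -/
noncomputable def yy (q : ℂ) [Fintype S] (m : S → ℤ) : ℂ := ∏ α : S, ((α : ℂ) ^ 2 / q) ^ (m α)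

theorem map_yy [Fintype S] (q : ℕ) (m : S → ℤ) (τ : ℂ ≃+* ℂ) :
    τ (yy (q : ℂ) m) = ∏ α : S, ((τ (α : ℂ)) ^ 2 / (q : ℂ)) ^ (m α) := by
  unfold yy
  rw [map_prod]
  refine Finset.prod_congr rfl fun α _ => ?_
  rw [map_zpow₀, map_div₀, map_pow, map_natCast]

theorem val_yy [Fintype S] (hp : p.Prime) (hn : 0 < n) (h𝔓 : 𝔓.IsPrime)
    (hp𝔓 : (p : integralClosure ℤ ℂ) ∈ 𝔓)
    (hS : ∀ α ∈ S, α ∈ Set.range j ∧ ∃ a b : integralClosure ℤ ℂ, (a : ℂ) = α ∧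
      (b : ℂ) = conj α ∧ a * b = (p : integralClosure ℤ ℂ) ^ n)
    (hτ : ∀ α ∈ S, ∀ τ : ℂ ≃+* ℂ, τ α ∈ S)
    (hord : ∀ α ∈ S, (∀ a : integralClosure ℤ ℂ, (a : ℂ) = α → a ∉ 𝔓) ∨
      ∀ b : integralClosure ℤ ℂ, (b : ℂ) = conj α → b ∉ 𝔓) (m : S → ℤ) (τ : ℂ ≃+* ℂ) :
    Val j 𝔓 ((p ^ n : ℕ) : ℂ) (τ (yy ((p ^ n : ℕ) : ℂ) m)) (∑ α : S, m α * sg 𝔓 (τ (α : ℂ))) := by
  have hq : ((p ^ n : ℕ) : ℂ) ≠ 0 := by exact_mod_cast pow_ne_zero n hp.ne_zero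
  rw [map_yy]
  refine Val.prod h𝔓 hq _ _ _ fun α _ => ?_
  have h1 := hτ α α.2 τ
  exact Val.zpow h𝔓 hq (val_sg hp h𝔓 hp𝔓 hn (hS _ h1).1 (hS _ h1).2 (hord _ h1)) _

theorem norm_yy [Fintype S] (hp : p.Prime)
    (hS : ∀ α ∈ S, α ∈ Set.range j ∧ ∃ a b : integralClosure ℤ ℂ, (a : ℂ) = α ∧
      (b : ℂ) = conj α ∧ a * b = (p : integralClosure ℤ ℂ) ^ n)
    (hτ : ∀ α ∈ S, ∀ τ : ℂ ≃+* ℂ, τ α ∈ S) (m : S → ℤ) (τ : ℂ ≃+* ℂ) :
    ‖τ (yy ((p ^ n : ℕ) : ℂ) m)‖ = 1 := by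
  have hq : ((p ^ n : ℕ) : ℂ) ≠ 0 := by exact_mod_cast pow_ne_zero n hp.ne_zero
  rw [map_yy, norm_prod]
  refine Finset.prod_eq_one fun α _ => ?_
  obtain ⟨-, a, b, ha, hb, hab⟩ := hS _ (hτ α α.2 τ)
  have hab' : (a : ℂ) * b = ((p ^ n : ℕ) : ℂ) := by
    have := congrArg (fun x : integralClosure ℤ ℂ => (x : ℂ)) hab
    push_cast at this ⊢
    exact this
  rw [ha, hb] at hab'
  have h2 : ‖τ (α : ℂ)‖ ^ 2 = ‖((p ^ n : ℕ) : ℂ)‖ := by
    rw [← hab', norm_mul, Complex.norm_conj, pow_two]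
  rw [norm_zpow, norm_div, norm_pow, h2, div_self (norm_ne_zero_iff.2 hq), one_zpow]

theorem isIntegral_yy [Fintype S] (hp : p.Prime)
    (hS : ∀ α ∈ S, α ∈ Set.range j ∧ ∃ a b : integralClosure ℤ ℂ, (a : ℂ) = α ∧
      (b : ℂ) = conj α ∧ a * b = (p : integralClosure ℤ ℂ) ^ n) (m : S → ℤ) :
    IsIntegral ℤ (((p ^ n : ℕ) : ℂ) ^ (∑ α : S, (m α).natAbs) * yy ((p ^ n : ℕ) : ℂ) m) := by
  have hq : ((p ^ n : ℕ) : ℂ) ≠ 0 := by exact_mod_cast pow_ne_zero n hp.ne_zero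
  unfold yy
  rw [← Finset.prod_pow_eq_pow_sum, ← Finset.prod_mul_distrib]
  refine IsIntegral.prod _ fun α _ => ?_
  obtain ⟨-, a, b, ha, hb, hab⟩ := hS _ α.2
  have hab' : (a : ℂ) * b = ((p ^ n : ℕ) : ℂ) := by
    have := congrArg (fun x : integralClosure ℤ ℂ => (x : ℂ)) hab
    push_cast at this ⊢
    exact this
  have ha0 : (a : ℂ) ≠ 0 := by
    intro h
    rw [h, zero_mul] at hab'
    exact hq hab'.symm
  obtain ⟨k, hk | hk⟩ := (m α).eq_nat_or_neg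
  · rw [hk, Int.natAbs_natCast, zpow_natCast, ← mul_pow, mul_div_cancel₀ _ hq, ← ha]
    exact (a.2.pow 2).pow k
  · rw [hk, Int.natAbs_neg, Int.natAbs_natCast, zpow_neg, zpow_natCast, ← inv_pow, ← mul_pow]
    have e : ((p ^ n : ℕ) : ℂ) * ((α : ℂ) ^ 2 / ((p ^ n : ℕ) : ℂ))⁻¹ = (b : ℂ) ^ 2 := by
      rw [← ha, inv_div, mul_div_assoc', div_eq_iff (pow_ne_zero 2 ha0), ← hab']
      ring
    rw [e]
    exact (b.2.pow 2).pow k

/-- A product with balanced signs is a root of unity. -/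
theorem pow_yy [Fintype S] (hp : p.Prime) (hn : 0 < n) (h𝔓 : 𝔓.IsPrime)
    (hp𝔓 : (p : integralClosure ℤ ℂ) ∈ 𝔓)
    (hS : ∀ α ∈ S, α ∈ Set.range j ∧ ∃ a b : integralClosure ℤ ℂ, (a : ℂ) = α ∧
      (b : ℂ) = conj α ∧ a * b = (p : integralClosure ℤ ℂ) ^ n)
    (hτ : ∀ α ∈ S, ∀ τ : ℂ ≃+* ℂ, τ α ∈ S)
    (hord : ∀ α ∈ S, (∀ a : integralClosure ℤ ℂ, (a : ℂ) = α → a ∉ 𝔓) ∨
      ∀ b : integralClosure ℤ ℂ, (b : ℂ) = conj α → b ∉ 𝔓) (m : S → ℤ)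
    (hm : ∀ τ : ℂ ≃+* ℂ, ∑ α : S, m α * sg 𝔓 (τ (α : ℂ)) = 0) :
    ∃ s : ℕ, 0 < s ∧ yy ((p ^ n : ℕ) : ℂ) m ^ s = 1 := by
  have hq : ((p ^ n : ℕ) : ℂ) ≠ 0 := by exact_mod_cast pow_ne_zero n hp.ne_zero
  obtain ⟨y, hy⟩ : ∃ y : L, j y = yy ((p ^ n : ℕ) : ℂ) m := by
    have h1 : yy ((p ^ n : ℕ) : ℂ) m ∈ j.fieldRange := by
      refine Subfield.prod_mem _ fun α _ => zpow_mem (div_mem (pow_mem ?_ 2) ?_) _
      · exact (hS α α.2).1
      · exact natCast_mem _ _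
    exact h1
  obtain ⟨M, hM⟩ : ∃ M : ℕ, M = ∑ α : S, (m α).natAbs := ⟨_, rfl⟩
  obtain ⟨x, hx⟩ : ∃ x : L, x = ((p : L) ^ n) ^ M * y := ⟨_, rfl⟩
  have hjx : j x = ((p ^ n : ℕ) : ℂ) ^ M * yy ((p ^ n : ℕ) : ℂ) m := by
    rw [hx, map_mul, map_pow, map_pow, map_natCast, hy]
    push_cast
    rfl
  have hint : ∀ z : L, IsIntegral ℤ (j z) → IsIntegral ℤ z := fun z hz =>
    (isIntegral_algHom_iff (RingHom.toIntAlgHom j) j.injective).1 hz
  have hxi : IsIntegral ℤ x := by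
    apply hint
    rw [hjx, hM]
    exact isIntegral_yy hp hS m
  let i : 𝓞 L →+* integralClosure ℤ ℂ :=
    RingHom.codRestrict (j.comp (algebraMap (𝓞 L) L)) (integralClosure ℤ ℂ) fun z =>
      (isIntegral_algHom_iff (RingHom.toIntAlgHom j) j.injective).2 z.2
  have hi : ∀ z : 𝓞 L, ((i z : integralClosure ℤ ℂ) : ℂ) = j (z : L) := fun z => rfl
  have hprime : (Ideal.comap i 𝔓).IsPrime := Ideal.comap_isPrime i 𝔓
  obtain ⟨s, hs, h⟩ := root_of_balanced x hxi p n M hp hn (by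
    intro φ
    obtain ⟨σ, hσ⟩ := exists_aut_comp j φ
    obtain ⟨τ, hτ'⟩ := Pool.Agent.H977R3.CM.exists_aut j (σ : L ≃+* L)
    have h1 : φ x = τ (j x) := by
      rw [hσ, hτ']
      rfl
    rw [h1, hjx, map_mul, norm_mul, norm_yy hp hS hτ, map_pow, map_natCast, mul_one, norm_pow,
      Complex.norm_natCast]
    push_cast
    rfl) (Ideal.comap i 𝔓) hprime (by
      rw [Ideal.mem_comap, map_natCast]
      exact hp𝔓) (by
    intro σ
    obtain ⟨τ, hτ'⟩ := Pool.Agent.H977R3.CM.exists_aut j (σ : L ≃+* L)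
    have h1 := val_yy hp hn h𝔓 hp𝔓 hS hτ hord m τ
    rw [hm τ] at h1
    obtain ⟨a, b, ha, hb, ⟨a', ha'⟩, ⟨b', hb'⟩, hab⟩ := h1
    have hai : IsIntegral ℤ a' := hint a' (by rw [ha']; exact a.2)
    have hbi : IsIntegral ℤ b' := hint b' (by rw [hb']; exact b.2)
    refine ⟨⟨a', hai⟩, ⟨b', hbi⟩, ?_, ?_, ?_⟩
    · intro h
      apply ha
      have e : i ⟨a', hai⟩ = a := Subtype.ext ha'
      rw [← e]
      exact h
    · intro h
      apply hb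
      have e : i ⟨b', hbi⟩ = b := Subtype.ext hb'
      rw [← e]
      exact h
    · apply j.injective
      change j (a' * σ x) = j (b' * ((p : L) ^ n) ^ M)
      have h2 : j (σ x) = τ (j x) := (hτ' x).symm
      rw [map_mul, map_mul, h2, hjx, ha', hb', map_mul, map_pow, map_natCast, map_pow, map_pow,
        map_natCast]
      rw [zpow_zero, mul_one] at hab
      rw [← hab]
      push_cast
      ring)
  refine ⟨s, hs, ?_⟩
  have h1 := congrArg j h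
  rw [map_pow, hjx, map_pow, map_pow, map_pow, map_natCast, mul_pow] at h1
  have h2 : (((p : ℂ) ^ n) ^ M) ^ s ≠ 0 := by
    refine pow_ne_zero _ (pow_ne_zero _ ?_)
    push_cast at hq
    exact hq
  push_cast at h1 ⊢
  exact mul_left_cancel₀ h2 (h1.trans (mul_one _).symm)

open Classical in
theorem rank_eq (hp : p.Prime) (hn : 0 < n) (j : L →+* ℂ) (S : Set ℂ) (hSfin : S.Finite)
    (𝔓 : Ideal (integralClosure ℤ ℂ)) (h𝔓 : 𝔓.IsPrime) (hp𝔓 : (p : integralClosure ℤ ℂ) ∈ 𝔓)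
    (hS : ∀ α ∈ S, α ∈ Set.range j ∧ ∃ a b : integralClosure ℤ ℂ, (a : ℂ) = α ∧
      (b : ℂ) = conj α ∧ a * b = (p : integralClosure ℤ ℂ) ^ n)
    (hτ : ∀ α ∈ S, ∀ τ : ℂ ≃+* ℂ, τ α ∈ S)
    (hord : ∀ α ∈ S, (∀ a : integralClosure ℤ ℂ, (a : ℂ) = α → a ∉ 𝔓) ∨
      ∀ b : integralClosure ℤ ℂ, (b : ℂ) = conj α → b ∉ 𝔓) :
    finrank ℤ (Additive (Subgroup.closure
      {u : ℂˣ | ∃ α ∈ S, (u : ℂ) * ((p ^ n : ℕ) : ℂ) = α ^ 2})) =
    finrank ℚ (Submodule.span ℚ {s : (ℂ ≃+* ℂ) → ℚ | ∃ α ∈ S, s = fun τ =>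
      if (∃ a : integralClosure ℤ ℂ, (a : ℂ) = τ α ∧ a ∈ 𝔓) then 1 else -1}) := by
  have hq : ((p ^ n : ℕ) : ℂ) ≠ 0 := by exact_mod_cast pow_ne_zero n hp.ne_zero
  have := hSfin.fintype
  have hne : ∀ α : S, (α : ℂ) ^ 2 / ((p ^ n : ℕ) : ℂ) ≠ 0 := by
    intro α
    refine div_ne_zero (pow_ne_zero 2 ?_) hq
    intro h0
    obtain ⟨-, a, b, ha, hb, hab⟩ := hS _ α.2
    have hab' : (a : ℂ) * b = ((p ^ n : ℕ) : ℂ) := by
      have := congrArg (fun x : integralClosure ℤ ℂ => (x : ℂ)) hab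
      push_cast at this ⊢
      exact this
    rw [ha, h0, zero_mul] at hab'
    exact hq hab'.symm
  let u : S → ℂˣ := fun α => Units.mk0 _ (hne α)
  have hset : {u : ℂˣ | ∃ α ∈ S, (u : ℂ) * ((p ^ n : ℕ) : ℂ) = α ^ 2} = Set.range u := by
    ext z
    constructor
    · rintro ⟨α, hα, h⟩
      refine ⟨⟨α, hα⟩, ?_⟩
      apply Units.ext
      change α ^ 2 / ((p ^ n : ℕ) : ℂ) = z
      rw [div_eq_iff hq]
      exact h.symm
    · rintro ⟨α, rfl⟩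
      refine ⟨α, α.2, ?_⟩
      change (α : ℂ) ^ 2 / ((p ^ n : ℕ) : ℂ) * ((p ^ n : ℕ) : ℂ) = (α : ℂ) ^ 2
      rw [div_mul_cancel₀ _ hq]
  have hset2 : {s : (ℂ ≃+* ℂ) → ℚ | ∃ α ∈ S, s = fun τ =>
      if (∃ a : integralClosure ℤ ℂ, (a : ℂ) = τ α ∧ a ∈ 𝔓) then 1 else -1} =
      Set.range (fun (α : S) (τ : ℂ ≃+* ℂ) => ((sg 𝔓 (τ (α : ℂ)) : ℤ) : ℚ)) := by
    have e : ∀ β : ℂ, ((sg 𝔓 β : ℤ) : ℚ) =
        if (∃ a : integralClosure ℤ ℂ, (a : ℂ) = β ∧ a ∈ 𝔓) then 1 else -1 := by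
      intro β
      unfold sg
      split_ifs <;> simp
    ext s
    constructor
    · rintro ⟨α, hα, rfl⟩
      exact ⟨⟨α, hα⟩, funext fun τ => e _⟩
    · rintro ⟨α, rfl⟩
      exact ⟨α, α.2, funext fun τ => e _⟩
  rw [hset, hset2]
  let w : S → Subgroup.closure (Set.range u) := fun α => ⟨u α, Subgroup.subset_closure ⟨α, rfl⟩⟩
  let F : (S → ℤ) →ₗ[ℤ] Additive (Subgroup.closure (Set.range u)) :=
    Fintype.linearCombination ℤ fun α => Additive.ofMul (w α)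
  have hF : ∀ m, F m = Additive.ofMul (∏ α, w α ^ m α) := by
    intro m
    rw [ofMul_prod]
    exact Fintype.linearCombination_apply ℤ _ m
  have hFy : ∀ m, (((∏ α, w α ^ m α : Subgroup.closure (Set.range u)) : ℂˣ) : ℂ) =
      yy ((p ^ n : ℕ) : ℂ) m := by
    intro m
    rw [Subgroup.val_finsetProd, Units.coe_prod]
    refine Finset.prod_congr rfl fun α _ => ?_
    rw [Subgroup.coe_zpow, Units.val_zpow_eq_zpow_val]
    rfl
  refine finrank_eq_of F ?_ _ ?_ ?_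
  · intro x
    obtain ⟨m, hm⟩ := Subgroup.exists_of_mem_closure_range _ _ (Additive.toMul x).2
    refine ⟨m, ?_⟩
    rw [hF]
    apply Additive.toMul.injective
    apply Subtype.ext
    rw [hm]
    change ((∏ α, w α ^ m α : Subgroup.closure (Set.range u)) : ℂˣ) = _
    rw [Subgroup.val_finsetProd]
    rfl
  · intro m hm
    rw [hF] at hm
    have h1 : (∏ α, w α ^ m α : Subgroup.closure (Set.range u)) = 1 := hm
    have h2 := hFy m
    rw [h1] at h2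
    have h3 : yy ((p ^ n : ℕ) : ℂ) m = 1 := by
      rw [← h2]
      rfl
    funext τ
    have h4 := val_yy hp hn h𝔓 hp𝔓 hS hτ hord m τ
    rw [h3, map_one] at h4
    have hQ : (((p : integralClosure ℤ ℂ) ^ n : integralClosure ℤ ℂ) : ℂ) = ((p ^ n : ℕ) : ℂ) := by
      push_cast
      rfl
    have h5 := Val.eq_zero h𝔓 hQ (Ideal.pow_mem_of_mem _ hp𝔓 n hn) hq h4
    rw [Finset.sum_apply, Pi.zero_apply]
    have h6 := congrArg (fun z : ℤ => (z : ℚ)) h5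
    simp only [Int.cast_sum, Int.cast_mul, Int.cast_zero] at h6
    rw [← h6]
    refine Finset.sum_congr rfl fun α _ => ?_
    simp
  · intro m hm
    have h1 : ∀ τ : ℂ ≃+* ℂ, ∑ α : S, m α * sg 𝔓 (τ (α : ℂ)) = 0 := by
      intro τ
      have h2 := congrFun hm τ
      rw [Finset.sum_apply, Pi.zero_apply] at h2
      have h3 : ((∑ α : S, m α * sg 𝔓 (τ (α : ℂ)) : ℤ) : ℚ) = 0 := by
        rw [← h2]
        push_cast
        refine Finset.sum_congr rfl fun α _ => ?_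
        simp
      exact_mod_cast h3
    obtain ⟨s, hs, h2⟩ := pow_yy hp hn h𝔓 hp𝔓 hS hτ hord m h1
    refine ⟨s, by exact_mod_cast hs.ne', ?_⟩
    rw [hF]
    have h3 : (∏ α, w α ^ m α : Subgroup.closure (Set.range u)) ^ s = 1 := by
      apply Subtype.ext
      apply Units.ext
      rw [← hFy m] at h2
      rw [Subgroup.coe_pow, Units.val_pow_eq_pow_val, h2]
      rfl
    rw [natCast_zsmul, ← ofMul_pow, h3]
    rfl

end main

end Pool.Agent.K4H21.TL
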