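import Pool.Agent.K4H21.TL.Mat0
import Pool.Agent.K4H21.LC.Simp

/-!
# Conjugates over an imaginary quadratic field
-/

set_option linter.unusedSectionVars false
set_option linter.unusedVariables false
set_option autoImplicit false

namespace Pool.Agent.K4H21.TL

open Module NumberField Equiv Pool.Agent.R915 Pool.Agent.K4H29.HC Pool.Agent.K4H21.DB
open Pool.Agent.K4H21.LC
open Pool.Agent.Y90 (AV IsHom)
open Pool.Agent.W547.KB (CMPair CMAV)
open Pool.Agent.W547.LN (SameType exists_smul)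

noncomputable section

/-- The automorphisms of the field of complex numbers act transitively on the embeddings. -/
theorem exists_tau (A : CMPair) (φ0 φ : A.E →+* ℂ) : ∃ τ : ℂ ≃+* ℂ, (τ : ℂ →+* ℂ).comp φ0 = φ := by
  obtain ⟨L, _, _, _, _, j, hj⟩ := exists_cmL (Pool.Agent.W547.KB.single A)
  obtain ⟨χ0, rfl⟩ : ∃ χ : A.E →+* L, j.comp χ = φ0 := hj () φ0
  obtain ⟨χ, rfl⟩ : ∃ χ : A.E →+* L, j.comp χ = φ := hj () φ
  obtain ⟨g, rfl⟩ := exists_smul A χ0 χ
  obtain ⟨τ, hτ⟩ := Pool.Agent.H977R3.CM.exists_aut j (g : L ≃+* L)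
  refine ⟨τ, RingHom.ext fun a => ?_⟩
  exact hτ (χ0 a)

/-- The sign vector of the complex conjugate embedding. -/
theorem signs_conj' (A : CMPair) (φ : A.E →+* ℂ) :
    signs A (ComplexEmbedding.conjugate φ) = -signs A φ := by
  obtain ⟨L, _, _, _, _, j, hj⟩ := exists_cmL (Pool.Agent.W547.KB.single A)
  obtain ⟨χ, rfl⟩ : ∃ χ : A.E →+* L, j.comp χ = φ := hj () φ
  exact signs_conj j A χ

theorem cj_cj {E : Type} [Field E] (φ : E →+* ℂ) :
    ComplexEmbedding.conjugate (ComplexEmbedding.conjugate φ) = φ := by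
  ext a
  rw [ComplexEmbedding.conjugate_coe_eq, ComplexEmbedding.conjugate_coe_eq]
  exact Complex.conj_conj _

/-- Primitive types: the sign vectors of different embeddings are different. -/
theorem signs_inj {A : CMPair} (hA : Primitive A) {φ ψ : A.E →+* ℂ} (h : signs A φ = signs A ψ) :
    φ = ψ := by
  classical
  refine hA φ ψ fun τ => ?_
  have h1 := congrFun h τ
  unfold signs at h1
  by_cases h2 : (τ : ℂ →+* ℂ).comp φ ∈ A.Φ <;> by_cases h3 : (τ : ℂ →+* ℂ).comp ψ ∈ A.Φ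
  · exact ⟨fun _ => h3, fun _ => h2⟩
  · rw [if_pos h2, if_neg h3] at h1
    norm_num at h1
  · rw [if_neg h2, if_pos h3] at h1
    norm_num at h1
  · exact ⟨fun h => absurd h h2, fun h => absurd h h3⟩

section mk

variable {Y : AV} {F : Y.H →ₗ[ℚ] Y.H} {q : ℕ} {M : ∀ A : CMPair, (A.E →+* ℂ) → ℂ → Prop}
  (hM : Matching Y F q M) {A : CMPair} {φ0 : A.E →+* ℂ} {α : ℂ} (h0 : M A φ0 α)
  {δ' : A.E} {z : ℂ} (hz : φ0 δ' = z) {d : ℚ} (hd : 0 < d) (hδ : δ' * δ' = -(d : A.E))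

include hM in
theorem match_inj {φ ψ : A.E →+* ℂ} {β : ℂ} (h1 : M A φ β) (h2 : M A ψ β) : φ = ψ :=
  signs_inj (hM.factor _ _ _ h1).1 ((hM.eq_iff _ _ _ _ _ _ h1 h2).1 rfl)

include hM in
theorem match_unique {φ : A.E →+* ℂ} {β γ : ℂ} (h1 : M A φ β) (h2 : M A φ γ) : β = γ :=
  (hM.eq_iff _ _ _ _ _ _ h1 h2).2 rfl

include hM h0 hz in
/-- The conjugates over `ℚ(z)`. -/
theorem mem_conjOver (β : ℂ) : β ∈ conjOver α z ↔ ∃ φ : A.E →+* ℂ, φ δ' = z ∧ M A φ β := by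
  constructor
  · rintro ⟨τ, hτ, rfl⟩
    refine ⟨(τ : ℂ →+* ℂ).comp φ0, ?_, hM.aut _ _ _ h0 τ⟩
    rw [← hz] at hτ
    exact hτ.trans hz
  · rintro ⟨φ, hφ, hβ⟩
    obtain ⟨τ, rfl⟩ := exists_tau A φ0 φ
    refine ⟨τ, ?_, match_unique hM (hM.aut _ _ _ h0 τ) hβ⟩
    rw [← hz] at hφ ⊢
    exact hφ

include hd in
theorem conj_sqrt {z : ℂ} (h : z * z = -(d : ℂ)) : starRingEnd ℂ z = -z := by
  have h1 : (starRingEnd ℂ z - z) * (starRingEnd ℂ z + z) = 0 := by
    have h2 : starRingEnd ℂ z * starRingEnd ℂ z = -(d : ℂ) := by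
      rw [← map_mul, h]
      simp
    have h3 : (starRingEnd ℂ z - z) * (starRingEnd ℂ z + z) =
        starRingEnd ℂ z * starRingEnd ℂ z - z * z := by ring
    rw [h3, h2, h, sub_self]
  rcases mul_eq_zero.1 h1 with h2 | h2
  · exfalso
    obtain ⟨r, hr⟩ := Complex.conj_eq_iff_real.1 (sub_eq_zero.1 h2)
    rw [hr] at h
    have h3 : ((r * r : ℝ) : ℂ) = ((-(d : ℝ) : ℝ) : ℂ) := by
      push_cast
      exact_mod_cast h
    have h4 : r * r = -(d : ℝ) := by exact_mod_cast h3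
    have h5 : (0 : ℝ) < (d : ℝ) := by exact_mod_cast hd
    nlinarith [mul_self_nonneg r]
  · exact eq_neg_of_add_eq_zero_left h2

include hM h0 hz hd hδ in
theorem encard_tan : (conjOver α z ∩ tanEigs Y F).encard = {φ ∈ A.Φ | φ δ' = z}.encard := by
  choose g hg using fun φ => hM.exists_eig A (hM.factor _ _ _ h0) φ
  have h1 : conjOver α z ∩ tanEigs Y F = g '' {φ ∈ A.Φ | φ δ' = z} := by
    ext β
    constructor
    · rintro ⟨h2, h3⟩
      obtain ⟨φ, h4, h5⟩ := (mem_conjOver hM h0 hz β).1 h2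
      exact ⟨φ, ⟨(hM.tan _ _ _ h5).2 h3, h4⟩, match_unique hM (hg φ) h5⟩
    · rintro ⟨φ, ⟨h2, h3⟩, rfl⟩
      exact ⟨(mem_conjOver hM h0 hz _).2 ⟨φ, h3, hg φ⟩, (hM.tan _ _ _ (hg φ)).1 h2⟩
  rw [h1]
  refine Function.Injective.encard_image (fun φ ψ h => ?_) _
  have h2 := hg ψ
  rw [← h] at h2
  exact match_inj hM (hg φ) h2

include hM h0 hz hd hδ in
theorem encard_not : (conjOver α z \ tanEigs Y F).encard = {φ ∈ A.Φ | φ δ' = -z}.encard := by
  choose g hg using fun φ => hM.exists_eig A (hM.factor _ _ _ h0) φ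
  have hzz : z * z = -(d : ℂ) := by
    rw [← hz, ← map_mul, hδ, map_neg, map_ratCast]
  have h1 : conjOver α z \ tanEigs Y F =
      (fun φ : A.E →+* ℂ => g (ComplexEmbedding.conjugate φ)) '' {φ ∈ A.Φ | φ δ' = -z} := by
    ext β
    constructor
    · rintro ⟨h2, h3⟩
      obtain ⟨φ, h4, h5⟩ := (mem_conjOver hM h0 hz β).1 h2
      have h6 : φ ∉ A.Φ := fun h => h3 ((hM.tan _ _ _ h5).1 h)
      refine ⟨ComplexEmbedding.conjugate φ, ⟨?_, ?_⟩, ?_⟩
      · rw [A.isCMType, cj_cj]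
        exact h6
      · rw [ComplexEmbedding.conjugate_coe_eq, h4, conj_sqrt hd hzz]
      · change g (ComplexEmbedding.conjugate (ComplexEmbedding.conjugate φ)) = β
        rw [cj_cj]
        exact match_unique hM (hg φ) h5
    · rintro ⟨φ, ⟨h2, h3⟩, rfl⟩
      refine ⟨(mem_conjOver hM h0 hz _).2 ⟨_, ?_, hg _⟩, fun h => ?_⟩
      · rw [ComplexEmbedding.conjugate_coe_eq, h3, map_neg, conj_sqrt hd hzz, neg_neg]
      · exact (A.isCMType φ).1 h2 ((hM.tan _ _ _ (hg _)).2 h)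
  rw [h1]
  refine Function.Injective.encard_image (fun φ ψ h => ?_) _
  have h2 := hg (ComplexEmbedding.conjugate ψ)
  have h' : g (ComplexEmbedding.conjugate φ) = g (ComplexEmbedding.conjugate ψ) := h
  rw [← h'] at h2
  have h3 := match_inj hM (hg _) h2
  have h4 := congrArg ComplexEmbedding.conjugate h3
  rwa [cj_cj, cj_cj] at h4

end mk

end

end Pool.Agent.K4H21.TL
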