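import Mathlib
import Pool.Agent.K4H21.LC.Defs

/-!
# Ordinary abelian varieties over finite fields, by their canonical lifts: definitions

Complex abelian varieties `AV` (given by `H = H_1(X, ℚ)`, the tangent space `T` and the period map
`per`) and homomorphisms `IsHom` are as in `Pool.Agent.Y90.Defs`.

Let `A` be an ordinary abelian variety over the finite field with `q = p ^ n` elements, `Y` the complex
abelian variety which comes from its canonical lift by an embedding of the ring of Witt vectors in
the field of complex numbers, and `F` the endomorphism of `Y` which lifts the Frobenius endomorphism.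
By the theorems of Serre and Tate, Messing and Deligne, the category of ordinary abelian varieties up
to isogeny is equivalent with the category of the pairs `(Y, F)` with the properties below, and
`H_1(Y, ℚ) ⊗ ℚ_ℓ`, with `F`, is the rational Tate module of `A` with the Frobenius endomorphism.
So the `ℓ`-adic cohomology of `A` in degree `m` is the space of the alternating forms in `m` variables on
`H_1(Y, ℚ)` with values in `ℚ_ℓ`.
-/

set_option autoImplicit false

namespace Pool.Agent.K4H21.TL

open Module Pool.Agent.Y90 Pool.Agent.R915 Pool.Agent.K4H29.HC Pool.Agent.K4H21.DB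
open scoped ComplexConjugate

/-- The complex abelian variety `Y` with the endomorphism `F` is the canonical lift of an ordinary
abelian variety over the finite field with `p ^ n` elements:

* a power of `F` commutes with all endomorphisms of `Y`, and `Y` has complex multiplication;
* all eigenvalues `α` of `F` on the tangent space of `Y` are algebraic integers of absolute value
  `p ^ (n / 2)`, and the complex conjugate of `α` is not in the prime ideal `𝔓` over `p` of the ring of
  all algebraic integers in `ℂ` (the eigenvalues `α` on the tangent space are not `𝔓`-adic units, and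
  the other eigenvalues on `H_1(Y, ℂ)`, the conjugates, are units). -/
structure IsOrdinaryLift (Y : AV) (F : Y.H →ₗ[ℚ] Y.H) (p n : ℕ) : Prop where
  prime : p.Prime
  pos : 0 < n
  central : ∃ s, 0 < s ∧ ∀ g, IsHom Y Y g → ∀ v, g ((F ^ s) v) = (F ^ s) (g v)
  cm : ∀ Z, IsFactor Z Y → HasCMult Z
  eig : ∃ (Θ : Y.T →ₗ[ℂ] Y.T) (𝔓 : Ideal (integralClosure ℤ ℂ)),
    (∀ v, Θ (Y.per v) = Y.per (F v)) ∧ 𝔓.IsPrime ∧ (p : integralClosure ℤ ℂ) ∈ 𝔓 ∧
    ∀ α, Module.End.HasEigenvalue Θ α → ∃ a b : integralClosure ℤ ℂ, (a : ℂ) = α ∧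
      (b : ℂ) = conj α ∧ a * b = (p : integralClosure ℤ ℂ) ^ n ∧ b ∉ 𝔓

/-- The action of `F` on `H_1(Y ^ k, ℚ)`. -/
noncomputable def powF {Y : AV} (F : Y.H →ₗ[ℚ] Y.H) (k : ℕ) : (pow Y k).H →ₗ[ℚ] (pow Y k).H :=
  LinearMap.pi fun i : Fin k => F ∘ₗ (LinearMap.proj i : (∀ _ : Fin k, Y.H) →ₗ[ℚ] Y.H)

/-- The class `t` of degree `2 c`, an alternating form with values in `R`, is a Tate class over a finite
extension of the field with `q` elements: a power `F ^ s` of the Frobenius endomorphism multiplies it
with `q ^ (s c)`. -/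
def IsTate {H : Type} [AddCommGroup H] [Module ℚ H] (F : H →ₗ[ℚ] H) (q c : ℕ) {κ R : Type}
    [Field R] [CharZero R] (t : H [⋀^κ]→ₗ[ℚ] R) : Prop :=
  ∃ s : ℕ, 0 < s ∧ ∀ v : κ → H, t (fun k => (F ^ s) (v k)) = (q : R) ^ (s * c) * t v

/-- The class `t` with values in `R` is a linear combination, with coefficients in `R`, of rational
classes with the property `A`. -/
def IsCombination {H : Type} [AddCommGroup H] [Module ℚ H] {κ R : Type} [Field R] [CharZero R]
    (A : (H [⋀^κ]→ₗ[ℚ] ℚ) → Prop) (t : H [⋀^κ]→ₗ[ℚ] R) : Prop :=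
  (fun v : κ → H => t v) ∈
    Submodule.span R {g : (κ → H) → R | ∃ f, A f ∧ g = fun v => ((f v : ℚ) : R)}

/-- All Tate classes on all powers `Y ^ k` are linear combinations of classes in `A`: the Tate classes of
all degrees `2 c`, over all finite extensions of the field with `q` elements, with values in any field
`R` of characteristic zero (for example the field `ℚ_ℓ`). -/
def AllTate (A : (X : AV) → (κ : Type) → (X.H [⋀^κ]→ₗ[ℚ] ℚ) → Prop) (Y : AV) (F : Y.H →ₗ[ℚ] Y.H)
    (q : ℕ) : Prop :=
  ∀ (k c : ℕ) (κ : Type) [Finite κ] (R : Type) [Field R] [CharZero R]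
    (t : (pow Y k).H [⋀^κ]→ₗ[ℚ] R), Nat.card κ = 2 * c → IsTate (powF F k) q c t →
      IsCombination (A (pow Y k) κ) t

/-- The angle rank: the rank of the subgroup of `ℂˣ` which is generated by the numbers `α ^ 2 / q`,
for all eigenvalues `α` of the Frobenius endomorphism `F` (the complex roots of its minimal
polynomial). -/
noncomputable def angleRank {H : Type} [AddCommGroup H] [Module ℚ H] (F : H →ₗ[ℚ] H) (q : ℕ) : ℕ :=
  finrank ℤ (Additive (Subgroup.closure {u : ℂˣ | ∃ α : ℂ, Polynomial.aeval α (minpoly ℚ F) = 0 ∧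
    (u : ℂ) * q = α ^ 2}))

end Pool.Agent.K4H21.TL
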