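import Mathlib
import Pool.Agent.K4H21.TL.Defs

/-!
# Multiplicative relations between the eigenvalues of the Frobenius endomorphism: definitions
-/

set_option autoImplicit false

namespace Pool.Agent.K4H21.TL

open Module Pool.Agent.Y90 Pool.Agent.R915 Pool.Agent.K4H29.HC Pool.Agent.K4H21.DB

/-- The eigenvalues of `F`: the complex roots of the minimal polynomial. -/
def eigs {H : Type} [AddCommGroup H] [Module ℚ H] (F : H →ₗ[ℚ] H) : Set ℂ :=
  {α | Polynomial.aeval α (minpoly ℚ F) = 0}

/-- The eigenvalues of `F` on the tangent space of `Y`. If `Y` is a canonical lift (`IsOrdinaryLift`)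
and `F` the Frobenius endomorphism, these are the eigenvalues of `F` which are not `p`-adic units. -/
def tanEigs (Y : AV) (F : Y.H →ₗ[ℚ] Y.H) : Set ℂ :=
  {α | ∃ Θ : Y.T →ₗ[ℂ] Y.T, (∀ v, Θ (Y.per v) = Y.per (F v)) ∧ Module.End.HasEigenvalue Θ α}

/-- Different eigenvalues of `F` have different powers. (For the Frobenius endomorphism this is true
over a finite extension of the finite field.) -/
def Neat {H : Type} [AddCommGroup H] [Module ℚ H] (F : H →ₗ[ℚ] H) : Prop :=
  ∀ α ∈ eigs F, ∀ β ∈ eigs F, ∀ s : ℕ, 0 < s → α ^ s = β ^ s → α = β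

/-- The conjugates of the complex number `α` over the field `ℚ(δ)`. -/
def conjOver (α δ : ℂ) : Set ℂ := {β | ∃ τ : ℂ ≃+* ℂ, τ δ = δ ∧ τ α = β}

/-- The element `m` of the free abelian group on the complex numbers is a multiplicative relation
between the eigenvalues of `F`: only eigenvalues occur, and `∏ (α ^ 2 / q) ^ m(α)` is a root of
unity. -/
def IsMultRel {H : Type} [AddCommGroup H] [Module ℚ H] (F : H →ₗ[ℚ] H) (q : ℕ) (m : ℂ →₀ ℤ) :
    Prop :=
  (∀ α, m α ≠ 0 → α ∈ eigs F) ∧
    ∃ N : ℕ, 0 < N ∧ (m.prod fun α k => (α ^ 2 / (q : ℂ)) ^ k) ^ N = 1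

/-- The imaginary quadratic field `ℚ(δ)`, `δ = √-d`, is contained in `ℚ(α)`, and at most three
conjugates of `α` over `ℚ(δ)` are eigenvalues on the tangent space (`p`-adic non-units), and at most
three are not (units). -/
def Small (Y : AV) (F : Y.H →ₗ[ℚ] Y.H) (α δ : ℂ) (d : ℚ) : Prop :=
  0 < d ∧ δ * δ = -(d : ℂ) ∧ δ ∈ IntermediateField.adjoin ℚ {α} ∧
    (conjOver α δ ∩ tanEigs Y F).encard ≤ 3 ∧ (conjOver α δ \ tanEigs Y F).encard ≤ 3

/-- The subgroup of the free abelian group on the complex numbers which is generated by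

* the sums `[α] + [q / α]`, for the eigenvalues `α` of `F`;
* the sums `∑ [β]` over the conjugates `β` of `α` over `ℚ(δ)`, for the eigenvalues `α` of `F` and the
  imaginary quadratic fields `ℚ(δ)` in `ℚ(α)` with at most three units and at most three non-units
  among these conjugates (`Small`). -/
noncomputable def MultGen (Y : AV) (F : Y.H →ₗ[ℚ] Y.H) (q : ℕ) : AddSubgroup (ℂ →₀ ℤ) :=
  AddSubgroup.closure
    ({m | ∃ α ∈ eigs F, m = Finsupp.single α 1 + Finsupp.single ((q : ℂ) / α) 1} ∪
      {m | ∃ α ∈ eigs F, ∃ δ d, Small Y F α δ d ∧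
        ∀ β, m β = Set.indicator (conjOver α δ) (fun _ => (1 : ℤ)) β})

end Pool.Agent.K4H21.TL
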