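import Pool.Agent.K4H21.TL.Defs2

/-!
# Eigenvalues and embeddings
-/

set_option autoImplicit false

namespace Pool.Agent.K4H21.TL

open Module NumberField Pool.Agent.R915 Pool.Agent.K4H29.HC Pool.Agent.K4H21.DB
open Pool.Agent.Y90 (AV IsHom)
open Pool.Agent.W547.KB (CMPair)
open Pool.Agent.W547.LN (SameType)

/-- The eigenvalue `α` of `F` belongs to the embedding `φ` of the CM field of the simple factor `A`. -/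
structure Matching (Y : AV) (F : Y.H →ₗ[ℚ] Y.H) (q : ℕ)
    (M : ∀ A : CMPair, (A.E →+* ℂ) → ℂ → Prop) : Prop where
  factor : ∀ A φ α, M A φ α → IsCMFactor A Y
  mem : ∀ A φ α, M A φ α → α ∈ eigs F
  exists_eig : ∀ A, IsCMFactor A Y → ∀ φ : A.E →+* ℂ, ∃ α, M A φ α
  exists_emb : ∀ α ∈ eigs F, ∃ (A : CMPair) (φ : A.E →+* ℂ), M A φ α
  eq_iff : ∀ (A B : CMPair) (φ : A.E →+* ℂ) (ψ : B.E →+* ℂ) (α β : ℂ), M A φ α → M B ψ β →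
    (α = β ↔ signs A φ = signs B ψ)
  aut : ∀ (A : CMPair) (φ : A.E →+* ℂ) α, M A φ α → ∀ τ : ℂ ≃+* ℂ,
    M A ((τ : ℂ →+* ℂ).comp φ) (τ α)
  tan : ∀ (A : CMPair) (φ : A.E →+* ℂ) α, M A φ α → (φ ∈ A.Φ ↔ α ∈ tanEigs Y F)
  cnj : ∀ (A : CMPair) (φ : A.E →+* ℂ) α, M A φ α →
    M A (ComplexEmbedding.conjugate φ) ((q : ℂ) / α)
  field : ∀ (A : CMPair) (φ : A.E →+* ℂ) α, M A φ α → ∀ z : ℂ,
    z ∈ IntermediateField.adjoin ℚ {α} ↔ z ∈ Set.range φ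
  same : ∀ (A B : CMPair) (φ : A.E →+* ℂ) (ψ : B.E →+* ℂ) α, M A φ α → M B ψ α → SameType A B
  rel : ∀ {κ : Type} [Fintype κ] (A : κ → CMPair) (φ : ∀ k, (A k).E →+* ℂ) (α : κ → ℂ),
    (∀ k, M (A k) (φ k) (α k)) → ∀ m : κ → ℤ, ((∑ k, (m k : ℚ) • signs (A k) (φ k) = 0) ↔
      ∃ N : ℕ, 0 < N ∧ (∏ k, (α k ^ 2 / (q : ℂ)) ^ (m k)) ^ N = 1)

end Pool.Agent.K4H21.TL
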